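import Pool.Agent.R957.Fbm.Main

/-!
# `κ(γ) > 0` for every `γ ∈ (0, 2)`

`cov H s t` is the covariance of fractional Brownian motion, `RR γ N` the `N × N` matrix
`R_H (i, j)`, `1 ≤ i, j ≤ N`, with `H = γ / 2`; `herm M a` is `a* M a` and
`kappa γ N` the infimum of `(a* R^{∘2} a) / (a* R a)` over `a ∈ ℂ^N`, `a ≠ 0`.
-/

open Filter Topology
open scoped Matrix

namespace Pool.Agent.Results.MP_271f9a_pr.KappaPositive

open Pool.Agent.R957.Fbm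

/-- For every `γ ∈ (0, 2)` (in particular for every `γ ∈ (1, 2)`): `inf_N κ(γ, N) > 0`, so that
the limit `κ(γ)` of `κ(γ, N)` is positive. -/
theorem result (γ : ℝ) (h0 : 0 < γ) (h2 : γ < 2) :
    (∃ c : ℝ, 0 < c ∧ ∀ N : ℕ, 1 ≤ N →
      (∀ a : Fin N → ℂ, a ≠ 0 → 0 < herm (RR γ N) a ∧
        c * herm (RR γ N) a ≤ herm (RR γ N ⊙ RR γ N) a) ∧ c ≤ kappa γ N) ∧
    ∀ l : ℝ, Tendsto (kappa γ) atTop (𝓝 l) → 0 < l := by
  have hk := kap_pos h0 h2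
  refine ⟨⟨kap γ, hk, fun N hN => ⟨fun a ha => ⟨herm_pos h0 h2 a ha, herm_had_ge h0 h2 a⟩,
    kap_le_kappa h0 h2 hN⟩⟩, fun l hl => ?_⟩
  refine hk.trans_le (ge_of_tendsto hl ?_)
  filter_upwards [eventually_ge_atTop 1] with N hN
  exact kap_le_kappa h0 h2 hN

end Pool.Agent.Results.MP_271f9a_pr.KappaPositive
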